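import Pool.Agent.KS6_42.NFD.Near

/-!
# Nearfield designs that are not Galois field designs, for infinitely many orders

For every `m` prime to `6` there are a nearfield `N` of order `q = 343 ^ m`, `q = 3 (mod 4)`, and two
conjugate subgroups `G₁`, `G₂` of order `9` of its subgroup `S` of order `(q - 1) / 2` such that the
design `D(N, Φ, G₁)` is isomorphic to `D(q, 9)` and the design `D(N, Φ, G₂)` is not. In `D(q, 9)` two
different blocks have at most two common points, in `D(N, Φ, G₂)` there are two blocks with exactly three.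

`N` is the Dickson nearfield of the pair `(7 ^ m, 3)`; it contains the one of order `343`, because
`7 ^ m` acts on the field with `343` elements by a nontrivial automorphism and the non-cubes of this
field stay non-cubes. `G₁` is the set of the ninth roots of unity of the field.
-/

set_option autoImplicit false

namespace Pool.Agent.Results.MP_fd05bb_co.InfinitelyManyOrders

open Pool.Agent.KS6_42.NFD

/-- A nearfield: `(N, +)` is an abelian group, the nonzero elements form a group under the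
multiplication, `x 0 = 0 = 0 x`, and `(x + y) z = x z + y z`. -/
class Nearfield (N : Type) extends AddCommGroup N, GroupWithZero N where
  /-- the right distributive law -/
  right_distributive : ∀ x y z : N, (x + y) * z = x * z + y * z

/-- The blocks `G s + a = {x s + a : x ∈ G}` for `s` in `S` and `a` in `N`. If `N` is a nearfield (for
example a field) with `q = 3 (mod 4)` elements, `S` is the subgroup of order `(q - 1) / 2` of the group of
the nonzero elements and `G` is a subgroup of `S`, these are the blocks of `D(N, Φ, G)`. -/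
def blocks {N : Type} [Add N] [Monoid N] (S G : Subgroup Nˣ) : Set (Set N) :=
  {B | ∃ s ∈ S, ∃ a : N, B = {y | ∃ x ∈ G, y = (x : N) * (s : N) + a}}

/-- Two families of blocks are isomorphic: some bijection of the point sets maps the blocks of the first
family onto the blocks of the second one. -/
def Isomorphic {N K : Type} (D : Set (Set N)) (E : Set (Set K)) : Prop :=
  ∃ f : N ≃ K, (fun B : Set N => f '' B) '' D = E

instance fact_seven : Fact (Nat.Prime 7) := ⟨by norm_num⟩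

/-- the field with `343 ^ m` elements -/
abbrev F (m : ℕ) : Type := GaloisField 7 (3 * m)

lemma cardF {m : ℕ} (hm : m ≠ 0) : Nat.card (F m) = 343 ^ m := by
  rw [GaloisField.card 7 (3 * m) (by omega), pow_mul]
  norm_num

section

variable {m : ℕ} (hm : m ≠ 0)

/-- the points of the nearfield -/
@[nolint unusedArguments]
def NF (m : ℕ) (_ : m ≠ 0) : Type := F m

noncomputable instance : AddCommGroup (NF m hm) := inferInstanceAs (AddCommGroup (F m))

/-- the element of the nearfield -/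
def emb (x : F m) : NF m hm := x

open Classical in
/-- the inverse -/
noncomputable def iv (y : F m) : F m := if y = 0 then 0 else ni m y

lemma iv_zero : iv (0 : F m) = 0 := if_pos rfl

lemma iv_of {y : F m} (hy : y ≠ 0) : iv y = ni m y := if_neg hy

/-- the nearfield of order `343 ^ m` -/
noncomputable instance inst : Nearfield (NF m hm) :=
  { (inferInstance : AddCommGroup (NF m hm)) with
    mul := fun x y => nm (K := F m) m x y
    one := (1 : F m)
    inv := fun y => iv (m := m) y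
    mul_assoc := fun x y z => nm_assoc (K := F m) (cardF hm) x y z
    one_mul := fun x => one_nm (K := F m) x
    mul_one := fun x => nm_one (K := F m) x
    zero_mul := fun x => zero_nm (K := F m) x
    mul_zero := fun x => nm_zero (K := F m) x
    exists_pair_ne := ⟨(0 : F m), (1 : F m), (zero_ne_one : (0 : F m) ≠ 1)⟩
    inv_zero := iv_zero
    mul_inv_cancel := fun y hy => by
      have hy' : (show F m from y) ≠ 0 := hy
      have h1 := nm_ni (K := F m) (cardF hm) hy'
      rw [← iv_of hy'] at h1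
      exact h1
    right_distributive := fun x y z => nm_add (K := F m) x y z }

/-- the value of a unit in the field -/
def val (u : (NF m hm)ˣ) : F m := (u : NF m hm)

lemma val_ne (u : (NF m hm)ˣ) : val hm u ≠ 0 := u.ne_zero

lemma val_mul (u v : (NF m hm)ˣ) : val hm (u * v) = nm m (val hm u) (val hm v) := rfl

lemma val_one : val hm 1 = 1 := rfl

lemma val_inj {u v : (NF m hm)ˣ} (h : val hm u = val hm v) : u = v := Units.ext h

/-- a nonzero element as a unit -/
noncomputable def mk (x : F m) (hx : x ≠ 0) : (NF m hm)ˣ :=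
  ⟨x, ni (K := F m) m x, nm_ni (K := F m) (cardF hm) hx, ni_nm (K := F m) (cardF hm) hx⟩

lemma val_mk (x : F m) (hx : x ≠ 0) : val hm (mk hm x hx) = x := rfl

/-- the subgroup of order `(q - 1) / 2` -/
noncomputable def S : Subgroup (NF m hm)ˣ where
  carrier := {u | val hm u ^ (171 * kk m) = 1}
  one_mem' := by
    change val hm 1 ^ (171 * kk m) = 1
    rw [val_one, one_pow]
  mul_mem' := by
    intro u v hu hv
    change val hm (u * v) ^ (171 * kk m) = 1
    rw [val_mul, nm_171 (cardF hm) (val_ne hm u)]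
    have hu' : val hm u ^ (171 * kk m) = 1 := hu
    have hv' : val hm v ^ (171 * kk m) = 1 := hv
    rw [hu', hv', mul_one]
  inv_mem' := by
    intro u hu
    have hu' : val hm u ^ (171 * kk m) = 1 := hu
    change val hm u⁻¹ ^ (171 * kk m) = 1
    have h1 := nm_171 (cardF hm) (val_ne hm u⁻¹) (y := val hm u)
    rw [← val_mul, inv_mul_cancel, val_one, one_pow, hu', mul_one] at h1
    exact h1.symm

lemma mem_S (u : (NF m hm)ˣ) : u ∈ S hm ↔ val hm u ^ (171 * kk m) = 1 := Iff.rfl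

lemma inv_eq (u : (NF m hm)ˣ) : u⁻¹ = mk hm (ni m (val hm u)) (ni_ne (val_ne hm u)) := by
  refine inv_eq_of_mul_eq_one_left (val_inj hm ?_)
  rw [val_mul, val_mk, ni_nm (cardF hm) (val_ne hm u), val_one]

/-- the set of the ninth roots of unity of the field -/
noncomputable def G₁ : Subgroup (NF m hm)ˣ where
  carrier := {u | val hm u ^ 9 = 1}
  one_mem' := by
    change val hm 1 ^ 9 = 1
    rw [val_one, one_pow]
  mul_mem' := by
    intro u v hu hv
    change val hm (u * v) ^ 9 = 1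
    rw [val_mul]
    exact nm_nine hu hv
  inv_mem' := by
    intro u hu
    change val hm u⁻¹ ^ 9 = 1
    rw [inv_eq, val_mk]
    exact ni_nine hu

lemma mem_G₁ (u : (NF m hm)ˣ) : u ∈ G₁ hm ↔ val hm u ^ 9 = 1 := Iff.rfl

lemma cardNF : Nat.card (NF m hm) = 343 ^ m := cardF hm

lemma card_units : Nat.card (NF m hm)ˣ = 342 * kk m := by
  have h1 : Nat.card (NF m hm)ˣ = Nat.card (F m)ˣ := by
    refine Nat.card_congr ⟨fun u => Units.mk0 (val hm u) (val_ne hm u),
      fun u => mk hm (u : F m) u.ne_zero, fun u => val_inj hm rfl, fun u => Units.ext rfl⟩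
  rw [h1, Nat.card_units, cardF hm, ← kk_eq, Nat.add_sub_cancel]

lemma card_S (h2 : m % 2 = 1) : Nat.card (S hm) = 171 * kk m := by
  have hk : kk m % 2 = 1 := by
    have := kk_mod m
    omega
  have h1 : (S hm).index = 2 := by
    rw [Subgroup.index_eq_two_iff]
    have hm1 : (-1 : F m) ≠ 0 := neg_ne_zero.2 one_ne_zero
    refine ⟨mk hm (-1) hm1, fun b => ?_⟩
    have h2 : cl m (-1 : F m) = 0 := by
      have he : (-1 : F m) ^ (114 * kk m) = 1 := by
        rw [pow_mul]
        have : (-1 : F m) ^ 114 = 1 := by norm_num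
        rw [this, one_pow]
      rcases cl_cases (cardF hm) hm1 with ⟨-, e⟩ | ⟨e, -⟩ | ⟨e, -⟩
      · exact e
      · rw [he] at e
        exact absurd e.symm four_ne_one
      · rw [he] at e
        exact absurd e.symm two_ne_one
    have h3 : val hm (b * mk hm (-1) hm1) = - val hm b := by
      rw [val_mul, val_mk]
      unfold nm
      rw [h2]
      simp
    have h7 := seven (K := F m)
    have h4 : (-1 : F m) ≠ 1 := by
      intro e
      exact two_ne (K := F m) (by linear_combination -e)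
    rw [mem_S, mem_S, h3]
    have h5 : (- val hm b) ^ (171 * kk m) = - (val hm b ^ (171 * kk m)) :=
      Odd.neg_pow (by rw [Nat.odd_iff, Nat.mul_mod, hk]) _
    rw [h5]
    rcases p171 (cardF hm) (val_ne hm b) with e | e
    · rw [e]
      exact Or.inr ⟨rfl, h4⟩
    · rw [e]
      exact Or.inl ⟨neg_neg 1, h4⟩
  have h2 := Subgroup.card_mul_index (S hm)
  rw [h1, card_units] at h2
  omega

lemma half_eq : (343 ^ m - 1) / 2 = 171 * kk m := by
  rw [← kk_eq]
  omega

/-- a primitive ninth root of unity in the field -/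
lemma card_G₁ : Nat.card (G₁ hm) = 9 := by
  obtain ⟨ζ, hz⟩ := exists_zeta (K := F m) (m := m) (cardF hm)
  have h9 : ∀ v ∈ L9, ph ζ v ^ 9 = 1 := by
    intro v hv
    have h1 : ∀ v ∈ L9, mulM v (mulM v (mulM v (mulM v (mulM v (mulM v (mulM v (mulM v v))))))) =
        (1, 0, 0) := by decide +kernel
    have h2 : ph ζ v ^ 9 = ph ζ v * (ph ζ v * (ph ζ v * (ph ζ v * (ph ζ v * (ph ζ v *
        (ph ζ v * (ph ζ v * ph ζ v))))))) := by ring
    rw [h2, ph_mul hz, ph_mul hz, ph_mul hz, ph_mul hz, ph_mul hz, ph_mul hz, ph_mul hz,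
      ph_mul hz, h1 v hv, ph_one]
  have hne : ∀ v ∈ L9, ph ζ v ≠ 0 := by
    intro v hv h0
    have := h9 v hv
    rw [h0, zero_pow (by norm_num)] at this
    exact zero_ne_one this
  have hset : (G₁ hm : Set (NF m hm)ˣ) =
      (fun v : {v // v ∈ L9.toFinset} => mk hm (ph ζ v.1) (hne v.1 (List.mem_toFinset.1 v.2))) ''
        Set.univ := by
    ext u
    constructor
    · intro hu
      obtain ⟨v, hv, e⟩ := ninth hz ((mem_G₁ hm u).1 hu)
      exact ⟨⟨v, List.mem_toFinset.2 hv⟩, trivial, val_inj hm (by rw [val_mk, e])⟩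
    · rintro ⟨⟨v, hv⟩, -, rfl⟩
      exact (mem_G₁ hm _).2 (h9 v (List.mem_toFinset.1 hv))
  have h10 : Nat.card (G₁ hm) = Set.ncard (G₁ hm : Set (NF m hm)ˣ) := rfl
  rw [h10, hset, Set.ncard_image_of_injective, Set.ncard_univ, Nat.card_eq_fintype_card,
    Fintype.card_coe]
  · decide +kernel
  · rintro ⟨v, hv⟩ ⟨w, hw⟩ e
    have e1 := congrArg (val hm) e
    exact Subtype.ext (ph_inj hz e1)

lemma G₁_le : G₁ hm ≤ S hm := by
  intro u hu
  rw [mem_S, show 171 = 9 * 19 by norm_num, mul_assoc, pow_mul, (mem_G₁ hm u).1 hu, one_pow]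

end

/-- a subgroup with `n` elements of the multiplicative group of a field consists of all `n`-th roots of
unity -/
lemma mem_of_card {K : Type} [Field K] {n : ℕ} (hn : n ≠ 0) (G : Subgroup Kˣ) (hG : Nat.card G = n)
    (u : Kˣ) : u ∈ G ↔ (u : K) ^ n = 1 := by
  have : NeZero n := ⟨hn⟩
  have hle : G ≤ rootsOfUnity n K := by
    intro x hx
    rw [mem_rootsOfUnity]
    have h1 : (⟨x, hx⟩ : G) ^ n = 1 := by
      rw [← hG]
      exact pow_card_eq_one'
    exact congrArg Subtype.val h1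
  have h2 : G = rootsOfUnity n K :=
    Subgroup.eq_of_le_of_card_ge hle (by rw [hG]; exact card_rootsOfUnity K n)
  rw [h2, mem_rootsOfUnity, ← Units.val_eq_one, Units.val_pow_eq_pow_val]

section iso

variable {m : ℕ} (hm : m ≠ 0)

/-- the blocks of `G₁` are the blocks of the field -/
lemma block_G₁ (u : (NF m hm)ˣ) (a y : NF m hm) :
    (∃ x ∈ G₁ hm, y = (x : NF m hm) * (u : NF m hm) + a) ↔
      ∃ z : F m, z ^ 9 = 1 ∧ (show F m from y) = z * val hm u + (show F m from a) := by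
  constructor
  · rintro ⟨x, hx, rfl⟩
    refine ⟨val hm x ^ ((7 ^ m) ^ cl m (val hm u)), ?_, rfl⟩
    rw [← pow_mul, mul_comm _ 9, pow_mul, (mem_G₁ hm x).1 hx, one_pow]
  · rintro ⟨z, hz, hy⟩
    obtain ⟨x, hx, hxz⟩ := ninth_pow (m := m) (cl m (val hm u)) hz
    have hx0 : x ≠ 0 := by
      rintro rfl
      rw [zero_pow (by norm_num)] at hx
      exact zero_ne_one hx
    refine ⟨mk hm x hx0, (mem_G₁ hm _).2 hx, ?_⟩
    rw [← hxz] at hy
    exact hy

/-- the design of `G₁` is the one of the field -/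
lemma iso_G₁ (h2 : m % 2 = 1) {K : Type} [Field K] (hK : Nat.card K = 343 ^ m) (S' G' : Subgroup Kˣ)
    (hS' : Nat.card S' = 171 * kk m) (hG' : Nat.card G' = 9) :
    Isomorphic (blocks (S hm) (G₁ hm)) (blocks S' G') := by
  have hf1 : Finite K := Nat.finite_of_card_ne_zero (by rw [hK]; positivity)
  have hf2 : Finite (F m) := finite_K (cardF hm)
  have := Fintype.ofFinite K
  have := Fintype.ofFinite (F m)
  have hk0 : kk m ≠ 0 := by
    have := kk_mod m
    intro h0
    omega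
  let f : F m ≃+* K := FiniteField.ringEquivOfCardEq (by
    rw [← Nat.card_eq_fintype_card, ← Nat.card_eq_fintype_card, hK, cardF hm])
  have hS : ∀ u : Kˣ, u ∈ S' ↔ (u : K) ^ (171 * kk m) = 1 :=
    mem_of_card (by positivity) S' hS'
  have hG : ∀ u : Kˣ, u ∈ G' ↔ (u : K) ^ 9 = 1 := mem_of_card (by norm_num) G' hG'
  have hblock : ∀ (t : Kˣ) (b y : K), (∃ x ∈ G', y = (x : K) * (t : K) + b) ↔
      ∃ z : K, z ^ 9 = 1 ∧ y = z * t + b := by
    intro t b y
    constructor
    · rintro ⟨x, hx, rfl⟩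
      exact ⟨x, (hG x).1 hx, rfl⟩
    · rintro ⟨z, hz, rfl⟩
      have hz0 : z ≠ 0 := by
        rintro rfl
        rw [zero_pow (by norm_num)] at hz
        exact zero_ne_one hz
      exact ⟨Units.mk0 z hz0, (hG _).2 hz, rfl⟩
  -- images of blocks
  have himg : ∀ (u : (NF m hm)ˣ) (a : NF m hm) (t : Kˣ) (b : K), f (val hm u) = t →
      f (show F m from a) = b →
      (f.toEquiv : NF m hm ≃ K) '' {y | ∃ x ∈ G₁ hm, y = (x : NF m hm) * (u : NF m hm) + a} =
        {y | ∃ x ∈ G', y = (x : K) * (t : K) + b} := by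
    intro u a t b hu ha
    ext y
    constructor
    · rintro ⟨y0, hy0, rfl⟩
      obtain ⟨z, hz, e⟩ := (block_G₁ hm u a y0).1 hy0
      refine (hblock t b _).2 ⟨f z, by rw [← map_pow, hz, map_one], ?_⟩
      change f (show F m from y0) = _
      rw [e, map_add, map_mul, hu, ha]
    · intro hy
      obtain ⟨z, hz, e⟩ := (hblock t b y).1 hy
      refine ⟨f.symm y, (block_G₁ hm u a _).2 ⟨f.symm z, by rw [← map_pow, hz, map_one], ?_⟩, ?_⟩
      · rw [← hu, ← ha] at e
        change f.symm y = _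
        rw [e, map_add, map_mul, f.symm_apply_apply, f.symm_apply_apply]
      · exact f.apply_symm_apply y
  refine ⟨f.toEquiv, ?_⟩
  ext B
  constructor
  · rintro ⟨B0, ⟨u, hu, a, rfl⟩, rfl⟩
    have hu0 : f (val hm u) ≠ 0 := by
      rw [map_ne_zero]
      exact val_ne hm u
    refine ⟨Units.mk0 (f (val hm u)) hu0, ?_, f (show F m from a), ?_⟩
    · rw [hS]
      change f (val hm u) ^ _ = 1
      rw [← map_pow, (mem_S hm u).1 hu, map_one]
    · exact himg u a _ _ rfl rfl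
  · rintro ⟨t, ht, b, rfl⟩
    have ht0 : f.symm (t : K) ≠ 0 := by
      rw [map_ne_zero]
      exact t.ne_zero
    refine ⟨{y | ∃ x ∈ G₁ hm, y = (x : NF m hm) * ((mk hm (f.symm (t : K)) ht0 : (NF m hm)ˣ) : NF m hm) +
      emb hm (f.symm b)}, ⟨_, ?_, _, rfl⟩, ?_⟩
    · rw [mem_S, val_mk, ← map_pow, (hS t).1 ht, map_one]
    · exact himg _ _ _ _ (f.apply_symm_apply _) (f.apply_symm_apply _)

end iso

/-- **Theorem.** Let `m` be prime to `6` and `q = 343 ^ m`, so that `q = 3 (mod 4)`. There are a nearfield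
`N` with `q` elements and two conjugate subgroups `G₁`, `G₂` of order `9` of the subgroup `S` of order
`(q - 1) / 2` of the group of its nonzero elements such that the design `D(N, Φ, G₁)` is isomorphic to the
Galois field design `D(q, 9)` and the design `D(N, Φ, G₂)` is not. -/
theorem result (m : ℕ) (hm6 : m.Coprime 6) :
    343 ^ m % 4 = 3 ∧ ∃ (N : Type) (_ : Nearfield N), Nat.card N = 343 ^ m ∧
      ∃ S G₁ G₂ : Subgroup Nˣ, Nat.card S = (343 ^ m - 1) / 2 ∧
        G₁ ≤ S ∧ Nat.card G₁ = 9 ∧ G₂ ≤ S ∧ Nat.card G₂ = 9 ∧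
        (∃ c ∈ S, G₂ = G₁.map (MulAut.conj c).toMonoidHom) ∧
        ∀ (K : Type) [Field K], Nat.card K = 343 ^ m → ∀ S' G' : Subgroup Kˣ,
          Nat.card S' = (343 ^ m - 1) / 2 → Nat.card G' = 9 →
          Isomorphic (blocks S G₁) (blocks S' G') ∧ ¬ Isomorphic (blocks S G₂) (blocks S' G') := by
  have hm2 : m % 2 = 1 := by
    have h1 : m.Coprime 2 := Nat.Coprime.coprime_dvd_right (by norm_num) hm6
    rwa [Nat.coprime_two_right, Nat.odd_iff] at h1
  have hm3 : m % 3 ≠ 0 := by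
    intro h0
    have h1 : m.Coprime 3 := Nat.Coprime.coprime_dvd_right (by norm_num) hm6
    have h2 : 3 ∣ 1 := by
      rw [← h1]
      exact Nat.dvd_gcd (Nat.dvd_of_mod_eq_zero h0) dvd_rfl
    omega
  have hm0 : m ≠ 0 := by
    rintro rfl
    omega
  obtain ⟨ζ, hz⟩ := exists_zeta (K := F m) (m := m) (cardF hm0)
  have ph_ne : ∀ v : M, v ≠ (0, 0, 0) → ph ζ v ≠ 0 := by
    intro v hv h0
    rw [← ph_zero (ζ := ζ)] at h0
    exact hv (ph_inj hz h0)
  -- the units that belong to elements of the model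
  let e : ∀ v : M, v ≠ (0, 0, 0) → (NF m hm0)ˣ := fun v hv => mk hm0 (ph ζ v) (ph_ne v hv)
  have ve : ∀ v hv, val hm0 (e v hv) = ph ζ v := fun v hv => rfl
  have eS : ∀ v hv, nrM v ^ 3 = 1 → e v hv ∈ S hm0 := by
    intro v hv h1
    rw [mem_S, ve v hv, ph_171 hz, h1, one_pow, map_one]
  have n165 : ((1, 6, 5) : M) ≠ (0, 0, 0) := by decide
  have n125 : ((1, 2, 5) : M) ≠ (0, 0, 0) := by decide
  have n330 : ((3, 3, 0) : M) ≠ (0, 0, 0) := by decide
  let c : (NF m hm0)ˣ := e (1, 6, 5) n165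
  let s : (NF m hm0)ˣ := e (3, 3, 0) n330
  let a : NF m hm0 := emb hm0 (ph ζ (2, 1, 0))
  have hcS : c ∈ S hm0 := eS (1, 6, 5) n165 (by decide +kernel)
  have hsS : s ∈ S hm0 := eS (3, 3, 0) n330 (by decide +kernel)
  have hci : c⁻¹ = e (1, 2, 5) n125 := by
    refine inv_eq_of_mul_eq_one_right (val_inj hm0 ?_)
    rw [val_mul, ve (1, 6, 5) n165, ve (1, 2, 5) n125, nm_ph hm3 hz,
      show nmM (1, 6, 5) (1, 2, 5) = (1, 0, 0) by decide +kernel, ph_one, val_one]
  let G₂ : Subgroup (NF m hm0)ˣ := (G₁ hm0).map (MulAut.conj c).toMonoidHom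
  have hconj : ∀ x : (NF m hm0)ˣ, ∀ v, val hm0 x = ph ζ v →
      val hm0 (c * x * c⁻¹) = ph ζ (nmM (nmM (1, 6, 5) v) (1, 2, 5)) := by
    intro x v hx
    rw [hci, val_mul, val_mul, ve (1, 6, 5) n165, ve (1, 2, 5) n125, hx, nm_ph hm3 hz, nm_ph hm3 hz]
  have h9 : ∀ v ∈ L9, ∀ hv : v ≠ (0, 0, 0), e v hv ∈ G₁ hm0 := by
    intro v hv hv0
    have h1 : ∀ v ∈ L9, mulM v (mulM v (mulM v (mulM v (mulM v (mulM v (mulM v (mulM v v))))))) =
        (1, 0, 0) := by decide +kernel
    have h2 : ph ζ v ^ 9 = ph ζ v * (ph ζ v * (ph ζ v * (ph ζ v * (ph ζ v * (ph ζ v *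
        (ph ζ v * (ph ζ v * ph ζ v))))))) := by ring
    rw [mem_G₁, ve v hv0, h2, ph_mul hz, ph_mul hz, ph_mul hz, ph_mul hz, ph_mul hz, ph_mul hz, ph_mul hz,
      ph_mul hz, h1 v hv, ph_one]
  have hG₂S : G₂ ≤ S hm0 := by
    rintro _ ⟨x, hx, rfl⟩
    change c * x * c⁻¹ ∈ S hm0
    exact (S hm0).mul_mem ((S hm0).mul_mem hcS (G₁_le hm0 hx)) ((S hm0).inv_mem hcS)
  have h34 : 343 ^ m % 4 = 3 := by
    obtain ⟨k, hk⟩ : ∃ k, m = 2 * k + 1 := ⟨m / 2, by omega⟩
    rw [hk, pow_succ, pow_mul, Nat.mul_mod, Nat.pow_mod]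
    norm_num
  refine ⟨h34, NF m hm0, inst hm0, cardNF hm0, S hm0, G₁ hm0, G₂, ?_, G₁_le hm0, card_G₁ hm0, hG₂S, ?_,
    ⟨c, hcS, rfl⟩, ?_⟩
  · rw [half_eq, card_S hm0 hm2]
  · rw [Subgroup.card_map_of_injective (MulAut.conj c).injective, card_G₁ hm0]
  intro K _ hK S' G' hS' hG'
  rw [half_eq] at hS'
  refine ⟨iso_G₁ hm0 hm2 hK S' G' hS' hG', ?_⟩
  rintro ⟨f, hf⟩
  have hfin : Finite K := Nat.finite_of_card_ne_zero (by rw [hK]; positivity)
  have hcp : CharP K 7 := by
    have := Fintype.ofFinite K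
    refine charP_of_card_eq_prime_pow (f := 3 * m) ?_
    rw [← Nat.card_eq_fintype_card, hK, pow_mul]
    norm_num
  obtain ⟨ζ', hz'⟩ := exists_zeta (K := K) (m := m) hK
  -- the two blocks
  let B1 : Set (NF m hm0) := {y | ∃ u ∈ G₂, y = (u : NF m hm0) * ((1 : (NF m hm0)ˣ) : NF m hm0) +
    (0 : NF m hm0)}
  let B2 : Set (NF m hm0) := {y | ∃ u ∈ G₂, y = (u : NF m hm0) * (s : NF m hm0) + a}
  have hB1 : B1 ∈ blocks (S hm0) G₂ := ⟨1, (S hm0).one_mem, 0, rfl⟩
  have hB2 : B2 ∈ blocks (S hm0) G₂ := ⟨s, hsS, a, rfl⟩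
  have m1 : ∀ (v w : M) (hv : v ∈ L9) (hv0 : v ≠ (0, 0, 0)), nmM (nmM (1, 6, 5) v) (1, 2, 5) = w →
      emb hm0 (ph ζ w) ∈ B1 := by
    intro v w hv hv0 h1
    refine ⟨c * e v hv0 * c⁻¹, ⟨e v hv0, h9 v hv hv0, rfl⟩, ?_⟩
    rw [add_zero, Units.val_one, mul_one, ← h1]
    exact (hconj _ v (ve v hv0)).symm
  have m2 : ∀ (v w : M) (hv : v ∈ L9) (hv0 : v ≠ (0, 0, 0)),
      nmM (nmM (nmM (1, 6, 5) v) (1, 2, 5)) (3, 3, 0) + (2, 1, 0) = w → emb hm0 (ph ζ w) ∈ B2 := by
    intro v w hv hv0 h1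
    refine ⟨c * e v hv0 * c⁻¹, ⟨e v hv0, h9 v hv hv0, rfl⟩, ?_⟩
    have h3 : ((c * e v hv0 * c⁻¹ : (NF m hm0)ˣ) : NF m hm0) * (s : NF m hm0) =
        (nm m (val hm0 (c * e v hv0 * c⁻¹)) (val hm0 s) : F m) := rfl
    have h4 : (nm m (val hm0 (c * e v hv0 * c⁻¹)) (val hm0 s) : F m) =
        ph ζ (nmM (nmM (nmM (1, 6, 5) v) (1, 2, 5)) (3, 3, 0)) := by
      rw [hconj _ v (ve v hv0), ve (3, 3, 0) n330, nm_ph hm3 hz]
    rw [h3, h4, ← h1, ← ph_add]
    rfl
  have p1 : emb hm0 (ph ζ (1, 0, 0)) ∈ B1 := m1 (1, 0, 0) _ (by decide) (by decide) (by decide +kernel)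
  have q1 : emb hm0 (ph ζ (0, 6, 2)) ∈ B1 := m1 (0, 1, 0) _ (by decide) (by decide) (by decide +kernel)
  have r1 : emb hm0 (ph ζ (0, 3, 1)) ∈ B1 := m1 (0, 4, 0) _ (by decide) (by decide) (by decide +kernel)
  have p2 : emb hm0 (ph ζ (1, 0, 0)) ∈ B2 := m2 (2, 0, 0) _ (by decide) (by decide) (by decide +kernel)
  have q2 : emb hm0 (ph ζ (0, 6, 2)) ∈ B2 := m2 (0, 0, 2) _ (by decide) (by decide) (by decide +kernel)
  have r2 : emb hm0 (ph ζ (0, 3, 1)) ∈ B2 := m2 (0, 2, 0) _ (by decide) (by decide) (by decide +kernel)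
  have w2 : emb hm0 (ph ζ (1, 0, 1)) ∈ B2 := m2 (0, 0, 1) _ (by decide) (by decide) (by decide +kernel)
  have w1 : emb hm0 (ph ζ (1, 0, 1)) ∉ B1 := by
    rintro ⟨u, ⟨x, hx, rfl⟩, h1⟩
    rw [add_zero, Units.val_one, mul_one] at h1
    obtain ⟨v, hv, hxv⟩ := ninth hz ((mem_G₁ hm0 x).1 hx)
    have h2 : ph ζ (1, 0, 1) = ph ζ (nmM (nmM (1, 6, 5) v) (1, 2, 5)) := by
      rw [← hconj x v hxv]
      exact h1
    have h3 := ph_inj hz h2
    have h4 : ∀ v ∈ L9, (1, 0, 1) ≠ nmM (nmM (1, 6, 5) v) (1, 2, 5) := by decide +kernel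
    exact h4 v hv h3
  have hne : B1 ≠ B2 := fun e => w1 (e ▸ w2)
  have npq : emb hm0 (ph ζ (1, 0, 0)) ≠ emb hm0 (ph ζ (0, 6, 2)) := fun e =>
    absurd (ph_inj hz e) (by decide)
  have npr : emb hm0 (ph ζ (1, 0, 0)) ≠ emb hm0 (ph ζ (0, 3, 1)) := fun e =>
    absurd (ph_inj hz e) (by decide)
  have nqr : emb hm0 (ph ζ (0, 6, 2)) ≠ emb hm0 (ph ζ (0, 3, 1)) := fun e =>
    absurd (ph_inj hz e) (by decide)
  have c1 : f '' B1 ∈ blocks S' G' := by rw [← hf]; exact ⟨B1, hB1, rfl⟩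
  have c2 : f '' B2 ∈ blocks S' G' := by rw [← hf]; exact ⟨B2, hB2, rfl⟩
  obtain ⟨s1, -, a1, e1⟩ := c1
  obtain ⟨s2, -, a2, e2⟩ := c2
  have k1 : ∀ y ∈ B1, ∃ z ∈ G', f y = (z : K) * (s1 : K) + a1 := by
    intro y hy
    have : f y ∈ f '' B1 := ⟨y, hy, rfl⟩
    rw [e1] at this
    exact this
  have k2 : ∀ y ∈ B2, ∃ z ∈ G', f y = (z : K) * (s2 : K) + a2 := by
    intro y hy
    have : f y ∈ f '' B2 := ⟨y, hy, rfl⟩
    rw [e2] at this
    exact this
  have h5 := field_blocks hz' G' (fun x hx => (mem_of_card (by norm_num) G' hG' x).1 hx)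
    (f.injective.ne npq) (f.injective.ne npr) (f.injective.ne nqr)
    (k1 _ p1) (k1 _ q1) (k1 _ r1) (k2 _ p2) (k2 _ q2) (k2 _ r2)
  rw [← e1, ← e2] at h5
  exact hne (f.injective.image_injective h5)

end Pool.Agent.Results.MP_fd05bb_co.InfinitelyManyOrders
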